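import Pool.Agent.MP_6a4325_al.H62.Spec

/-!
Row HER: the property `W` passes to subgroups and quotients, and implies `W1`.
-/

set_option autoImplicit false

namespace Pool.Agent.MP_6a4325_al.H87

open Matrix MonoidAlgebra Pool.Agent.MP_6a4325_al.H62

section
variable {F G H : Type} [Field F] [Group G] [Group H]

theorem comap_mul_map (f : H →* G) (hf : Function.Injective f) (a : MonoidAlgebra F G)
    (x : MonoidAlgebra F H) :
    comapDomain f hf (a * mapDomain f x) = comapDomain f hf a * x := by
  induction x using MonoidAlgebra.induction_linear with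
  | zero => simp
  | add x y hx hy => rw [mapDomain_add, mul_add, comapDomain_add, hx, hy, mul_add]
  | single h c =>
    ext k
    simp [mapDomain_single]

theorem act_map {K : Type} [Field K] [Algebra F K] {n : ℕ} (f : H →* G)
    (ρ : G →* Matrix (Fin n) (Fin n) K) (x : MonoidAlgebra F H) :
    act F (ρ.comp f) x = act F ρ (mapDomain f x) := by
  induction x using MonoidAlgebra.induction_linear with
  | zero => simp
  | add x y hx hy => rw [mapDomain_add, map_add, map_add, hx, hy]
  | single h c => simp [mapDomain_single]

theorem map_surj (f : H →* G) (hf : Function.Surjective f) (y : MonoidAlgebra F G) :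
    ∃ x : MonoidAlgebra F H, mapDomain f x = y := by
  induction y using MonoidAlgebra.induction_linear with
  | zero => exact ⟨0, mapDomain_zero _⟩
  | add x y hx hy =>
    obtain ⟨a, rfl⟩ := hx
    obtain ⟨b, rfl⟩ := hy
    exact ⟨a + b, mapDomain_add _ _ _⟩
  | single g c =>
    obtain ⟨h, rfl⟩ := hf g
    exact ⟨single h c, mapDomain_single⟩

end

theorem her_sub : SSub := by
  intro F G H _ _ _ f hf hW m L hL
  let L' : Submodule (MonoidAlgebra F G) (Fin m → MonoidAlgebra F G) :=
    { carrier := {y | ∀ a : MonoidAlgebra F G, (fun i => comapDomain f hf (a * y i)) ∈ L}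
      add_mem' := by
        intro y z hy hz a
        have h := L.add_mem (hy a) (hz a)
        have e : (fun i => comapDomain f hf (a * (y + z) i)) =
            (fun i => comapDomain f hf (a * y i)) + fun i => comapDomain f hf (a * z i) := by
          funext i
          simp only [Pi.add_apply, mul_add, comapDomain_add]
        rw [e]; exact h
      zero_mem' := by
        intro a
        have e : (fun i => comapDomain f hf (a * (0 : Fin m → MonoidAlgebra F G) i)) = 0 := by
          funext i
          simp
        rw [e]; exact L.zero_mem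
      smul_mem' := by
        intro b y hy a
        have h := hy (a * b)
        have e : (fun i => comapDomain f hf (a * (b • y) i)) =
            fun i => comapDomain f hf (a * b * y i) := by
          funext i
          simp only [Pi.smul_apply, smul_eq_mul, mul_assoc]
        rw [e]; exact h }
  have hL' : L' ≠ ⊤ := by
    intro h
    apply hL
    rw [eq_top_iff]
    intro x _
    have h1 : (fun i => mapDomain f (x i)) ∈ L' := by rw [h]; trivial
    have h2 := h1 1
    have e : (fun i => comapDomain f hf (1 * mapDomain f (x i))) = x := by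
      funext i
      rw [comap_mul_map]
      have : comapDomain f hf (1 : MonoidAlgebra F G) = 1 := by
        have := comapDomain_single_map (R := F) f hf 1 1
        rwa [map_one] at this
      rw [this, one_mul]
    rw [← e]; exact h2
  obtain ⟨K, i1, i2, i3, n, ρ, v, hv, hs⟩ := hW m L' hL'
  refine ⟨K, i1, i2, i3, n, ρ.comp f, v, hv, fun x hx => ?_⟩
  have hm : (fun i => mapDomain f (x i)) ∈ L' := by
    intro a
    have e : (fun i => comapDomain f hf (a * mapDomain f (x i))) = comapDomain f hf a • x := by
      funext i
      rw [comap_mul_map]; rfl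
    show (fun i => comapDomain f hf (a * mapDomain f (x i))) ∈ L
    rw [e]; exact L.smul_mem _ hx
  have := hs _ hm
  simpa only [act_map] using this

/-- a representation restricted to the vectors fixed by the kernel of a surjection -/
theorem descend {G Q K : Type} [Group G] [Group Q] [Field K] (f : G →* Q)
    (hf : Function.Surjective f) {n : ℕ} (ρ : G →* Matrix (Fin n) (Fin n) K) :
    ∃ (d : ℕ) (ρ' : Q →* Matrix (Fin d) (Fin d) K) (E : (Fin d → K) →ₗ[K] (Fin n → K)),
      Function.Injective E ∧ (∀ g c, E (ρ' (f g) *ᵥ c) = ρ g *ᵥ E c) ∧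
      ∀ u, (∀ g, f g = 1 → ρ g *ᵥ u = u) → ∃ c, E c = u := by
  let U : Submodule K (Fin n → K) :=
    { carrier := {u | ∀ g, f g = 1 → ρ g *ᵥ u = u}
      add_mem' := by
        intro a b ha hb g hg
        rw [mulVec_add, ha g hg, hb g hg]
      zero_mem' := by
        intro g _
        exact mulVec_zero _
      smul_mem' := by
        intro c a ha g hg
        rw [mulVec_smul, ha g hg] }
  have hinv : ∀ g : G, ∀ u ∈ U, Matrix.toLin' (ρ g) u ∈ U := by
    intro g u hu k hk
    have h1 : f (g⁻¹ * k * g) = 1 := by simp [hk]
    have h2 := hu _ h1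
    rw [Matrix.toLin'_apply, mulVec_mulVec, ← map_mul]
    conv_rhs => rw [← h2, mulVec_mulVec, ← map_mul]
    congr 2
    group
  let τ : G →* Module.End K U :=
    { toFun := fun g => (Matrix.toLin' (ρ g)).restrict (hinv g)
      map_one' := by
        ext u i
        simp
      map_mul' := by
        intro g h
        ext u i
        simp }
  have hker : f.ker ≤ τ.ker := by
    intro g hg
    rw [MonoidHom.mem_ker] at hg ⊢
    ext u i
    have := u.2 g hg
    simp [τ, this]
  have hcongr : ∀ g h : G, f g = f h → τ g = τ h := by
    intro g h e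
    have h1 : τ (h⁻¹ * g) = 1 := hker (by rw [MonoidHom.mem_ker, map_mul, map_inv, e]; simp)
    have h2 : g = h * (h⁻¹ * g) := by group
    rw [h2, map_mul, h1, mul_one]
  let τ' : Q →* Module.End K U :=
    { toFun := fun q => τ (Function.surjInv hf q)
      map_one' := by
        rw [← map_one τ]
        exact hcongr _ _ (by rw [Function.surjInv_eq hf, map_one])
      map_mul' := by
        intro p q
        rw [← map_mul τ]
        exact hcongr _ _ (by simp only [map_mul, Function.surjInv_eq hf]) }
  have hτ : ∀ g, τ' (f g) = τ g := fun g => hcongr _ _ (Function.surjInv_eq hf _)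
  let b := Module.finBasis K U
  refine ⟨_, (LinearMap.toMatrixAlgEquiv b).toMonoidHom.comp τ',
    U.subtype ∘ₗ b.equivFun.symm.toLinearMap, ?_, ?_, ?_⟩
  · exact U.injective_subtype.comp b.equivFun.symm.injective
  · intro g c
    obtain ⟨u, rfl⟩ := b.equivFun.surjective c
    have h1 : LinearMap.toMatrixAlgEquiv b (τ' (f g)) *ᵥ b.equivFun u = b.equivFun (τ g u) := by
      rw [hτ]
      exact LinearMap.toMatrix_mulVec_repr b b (τ g) u
    show U.subtype (b.equivFun.symm (LinearMap.toMatrixAlgEquiv b (τ' (f g)) *ᵥ b.equivFun u)) =
      ρ g *ᵥ U.subtype (b.equivFun.symm (b.equivFun u))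
    rw [h1, LinearEquiv.symm_apply_apply, LinearEquiv.symm_apply_apply]
    simp [τ]
  · intro u hu
    refine ⟨b.equivFun ⟨u, hu⟩, ?_⟩
    show U.subtype (b.equivFun.symm (b.equivFun ⟨u, hu⟩)) = u
    rw [LinearEquiv.symm_apply_apply]
    rfl

theorem her_quot : SQuot := by
  intro F G Q _ _ _ f hf hW m L hL
  let L' : Submodule (MonoidAlgebra F G) (Fin m → MonoidAlgebra F G) :=
    { carrier := {y | (fun i => mapDomain f (y i)) ∈ L}
      add_mem' := by
        intro y z hy hz
        have h := L.add_mem hy hz
        have e : (fun i => mapDomain f ((y + z) i)) =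
            (fun i => mapDomain f (y i)) + fun i => mapDomain f (z i) := by
          funext i
          simp only [Pi.add_apply, mapDomain_add]
        show (fun i => mapDomain f ((y + z) i)) ∈ L
        rw [e]; exact h
      zero_mem' := by
        have e : (fun i => mapDomain f ((0 : Fin m → MonoidAlgebra F G) i)) = 0 := by
          funext i
          simp
        show (fun i => mapDomain f ((0 : Fin m → MonoidAlgebra F G) i)) ∈ L
        rw [e]; exact L.zero_mem
      smul_mem' := by
        intro b y hy
        have e : (fun i => mapDomain f ((b • y) i)) =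
            mapDomain f b • fun i => mapDomain f (y i) := by
          funext i
          simp only [Pi.smul_apply, smul_eq_mul, mapDomain_mul]
        show (fun i => mapDomain f ((b • y) i)) ∈ L
        rw [e]; exact L.smul_mem _ hy }
  have lift : ∀ x : Fin m → MonoidAlgebra F Q, ∃ y : Fin m → MonoidAlgebra F G,
      (fun i => mapDomain f (y i)) = x := by
    intro x
    choose y hy using fun i => map_surj f hf (x i)
    exact ⟨y, funext hy⟩
  have hL' : L' ≠ ⊤ := by
    intro h
    apply hL
    rw [eq_top_iff]
    intro x _
    obtain ⟨y, rfl⟩ := lift x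
    have h1 : y ∈ L' := by rw [h]; trivial
    exact h1
  obtain ⟨K, i1, i2, i3, n, ρ, v, hv, hs⟩ := hW m L' hL'
  obtain ⟨d, ρ', E, hE, hρ, hU⟩ := descend f hf ρ
  have hfix : ∀ i, ∃ c, E c = v i := by
    intro i
    apply hU
    intro g hg
    have hm : (Pi.single i (single g 1 - 1) : Fin m → MonoidAlgebra F G) ∈ L' := by
      have e : (fun j => mapDomain f
          ((Pi.single i (single g 1 - 1) : Fin m → MonoidAlgebra F G) j)) = 0 := by
        funext j
        by_cases hj : j = i
        · subst hj
          have h1 : mapDomain f (single g 1 - 1 : MonoidAlgebra F G) =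
              mapDomain f (single g 1) - mapDomain f 1 := map_sub (mapDomainRingHom F f) _ _
          rw [Pi.single_eq_same, h1, mapDomain_single, mapDomain_one, hg]
          exact sub_self _
        · rw [Pi.single_eq_of_ne hj]
          exact mapDomain_zero _
      show (fun j => mapDomain f
          ((Pi.single i (single g 1 - 1) : Fin m → MonoidAlgebra F G) j)) ∈ L
      rw [e]; exact L.zero_mem
    have h := hs _ hm
    rw [Finset.sum_eq_single i (by
      intro j _ hj
      rw [Pi.single_eq_of_ne hj, map_zero, zero_mulVec]) (by simp)] at h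
    rw [Pi.single_eq_same, map_sub, map_one, sub_mulVec, one_mulVec, sub_eq_zero] at h
    simpa using h
  choose c hc using hfix
  have key : ∀ (x : MonoidAlgebra F G) (w : Fin d → K),
      E (act F ρ' (mapDomain f x) *ᵥ w) = act F ρ x *ᵥ E w := by
    intro x w
    induction x using MonoidAlgebra.induction_linear with
    | zero => simp
    | add x y hx hy =>
      rw [mapDomain_add, map_add, add_mulVec, map_add, hx, hy, map_add, add_mulVec]
    | single g a =>
      rw [mapDomain_single, lift_single, lift_single, smul_mulVec, smul_mulVec,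
        LinearMap.map_smul_of_tower, hρ]
  refine ⟨K, i1, i2, i3, d, ρ', c, ?_, fun x hx => ?_⟩
  · intro h0
    apply hv
    funext i
    rw [← hc i, h0]
    simp
  · obtain ⟨y, rfl⟩ := lift x
    apply hE
    rw [map_sum, map_zero, ← hs y hx]
    refine Finset.sum_congr rfl fun i _ => ?_
    rw [key, hc]

theorem w1 : SW1 := by
  intro G _ hW X hX
  let L : Submodule (MonoidAlgebra ℚ G) (Fin 1 → MonoidAlgebra ℚ G) :=
    { carrier := {z | z 0 ∈ Ideal.span X}
      add_mem' := fun ha hb => (Ideal.span X).add_mem ha hb
      zero_mem' := (Ideal.span X).zero_mem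
      smul_mem' := fun c _ ha => (Ideal.span X).mul_mem_left c ha }
  have hL : L ≠ ⊤ := by
    intro h
    have h1 : (fun _ => 1 : Fin 1 → MonoidAlgebra ℚ G) ∈ L := by rw [h]; trivial
    have h2 : (1 : MonoidAlgebra ℚ G) ∈ Ideal.span X := h1
    obtain ⟨T, hT, h3⟩ := Submodule.mem_span_finite_of_mem_span h2
    exact hX T hT ((Ideal.eq_top_iff_one _).2 h3)
  obtain ⟨K, i1, i2, i3, n, ρ, v, hv, hs⟩ := hW 1 L hL
  have i4 : CharZero K := algebraRat.charZero K
  have e : i2 = DivisionRing.toRatAlgebra := Subsingleton.elim _ _
  subst e
  refine ⟨K, i1, i4, i3, n, ρ, v 0, ?_, fun x hx => ?_⟩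
  · intro h0
    apply hv
    funext i
    rw [Subsingleton.elim i 0, h0]
    rfl
  · have hm : (fun _ => x : Fin 1 → MonoidAlgebra ℚ G) ∈ L := Ideal.subset_span hx
    have h := hs _ hm
    simpa using h

end Pool.Agent.MP_6a4325_al.H87
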